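import Pool.Agent.Lib.MP_21e00f_co.Asym

/-!
MP_21e00f_co: for every fixed `n` the quotient `s(t,n) / t` converges as `t → ∞`, and the limits
are asymptotic to `2^(n+1) / n`.
-/

set_option autoImplicit false

open Finset Filter Topology

namespace Pool.Agent.Results.MP_21e00f_co.GrowthInT

open Pool.Agent.Lib.MP_21e00f_co

/-- For every `n ≥ 1` the limit `lam n` of `s(t,n) / t` as `t → ∞` exists,
`(1/k) ∑_{i=1}^k C(n,i) ≤ lam n ≤ ∑_{k=1}^n C(n,k)/k` for all `k ≥ 1`, and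
`lam n * n / 2^(n+1) → 1` as `n → ∞`. -/
theorem result : ∃ lam : ℕ → ℝ,
    (∀ n : ℕ, 1 ≤ n → Tendsto (fun t : ℕ => (s t n : ℝ) / t) atTop (𝓝 (lam n))) ∧
    (∀ n k : ℕ, 1 ≤ n → 1 ≤ k → (∑ i ∈ Icc 1 k, (n.choose i : ℝ)) / k ≤ lam n) ∧
    (∀ n : ℕ, 1 ≤ n → lam n ≤ ∑ k ∈ Icc 1 n, (n.choose k : ℝ) / k) ∧
    Tendsto (fun n : ℕ => lam n * n / 2 ^ (n + 1)) atTop (𝓝 1) := by
  classical
  have h1 : ∀ n : ℕ, ∃ lam : ℝ, 1 ≤ n →
      Tendsto (fun t : ℕ => (s t n : ℝ) / t) atTop (𝓝 lam) := by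
    intro n
    by_cases hn : 1 ≤ n
    · obtain ⟨lam, h⟩ := limit_exists hn
      exact ⟨lam, fun _ => h⟩
    · exact ⟨0, fun h => absurd h hn⟩
  choose lam hlam using h1
  refine ⟨lam, hlam, ?_, ?_, asym lam hlam⟩
  · intro n k hn hk
    have hkr : (0 : ℝ) < k := by exact_mod_cast hk
    rw [div_le_iff₀ hkr, mul_comm]
    exact lim_ge hn (hlam n hn) k
  · intro n hn
    rw [← cn_eq]
    exact lim_le hn (hlam n hn)

end Pool.Agent.Results.MP_21e00f_co.GrowthInT
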