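import Mathlib

/-!
MP_21e00f_co: two-sided bounds for `s(t,n)`, valid for all `t` and `n`.
-/

set_option autoImplicit false

open Finset

namespace Pool.Agent.Results.MP_21e00f_co.TwoSidedBounds

/-- `a` is sum-distinct: different index sets have different subsums. -/
def SumDistinct {n : ℕ} (a : Fin n → ℕ) : Prop :=
  ∀ I J : Finset (Fin n), ∑ i ∈ I, a i = ∑ i ∈ J, a i → I = J

/-- `a` and `b` are compatible: no nonempty subsum of `a` equals a nonempty subsum of `b`. -/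
def Compatible {n : ℕ} (a b : Fin n → ℕ) : Prop :=
  ∀ I J : Finset (Fin n), I.Nonempty → J.Nonempty → ∑ i ∈ I, a i ≠ ∑ i ∈ J, b i

/-- A family of `t` pairwise compatible sum-distinct sequences of length `n`, each a strictly
increasing sequence of positive integers. -/
def IsFamily (t n : ℕ) (A : Fin t → Fin n → ℕ) : Prop :=
  (∀ j, StrictMono (A j)) ∧ (∀ j i, 0 < A j i) ∧ (∀ j, SumDistinct (A j)) ∧
    ∀ j k, j ≠ k → Compatible (A j) (A k)

/-- `s t n`: the minimum, over all such families, of the largest element occurring. -/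
noncomputable def s (t n : ℕ) : ℕ :=
  sInf {M : ℕ | ∃ A : Fin t → Fin n → ℕ, IsFamily t n A ∧ (∀ j i, A j i ≤ M) ∧ ∃ j i, A j i = M}

/-- the explicit family `a_{j,i} = j * 2^n + 2^i` -/
def fam (t n : ℕ) : Fin t → Fin n → ℕ := fun j i => (j : ℕ) * 2 ^ n + 2 ^ (i : ℕ)

lemma sum_fam (t n : ℕ) (j : Fin t) (I : Finset (Fin n)) :
    ∑ i ∈ I, fam t n j i = (I.card * j) * 2 ^ n + ∑ i ∈ I, 2 ^ (i : ℕ) := by
  unfold fam
  rw [sum_add_distrib, sum_const, smul_eq_mul, mul_assoc]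

lemma sum_pow_eq (n : ℕ) (I : Finset (Fin n)) :
    ∑ i ∈ I, 2 ^ (i : ℕ) = ∑ k ∈ I.map Fin.valEmbedding, 2 ^ k := by
  rw [sum_map]
  rfl

lemma sum_pow_lt (n : ℕ) (I : Finset (Fin n)) : ∑ i ∈ I, 2 ^ (i : ℕ) < 2 ^ n := by
  rw [sum_pow_eq]
  apply Nat.geomSum_lt le_rfl
  intro k hk
  rw [mem_map] at hk
  obtain ⟨i, _, rfl⟩ := hk
  exact i.2

lemma sum_pow_inj (n : ℕ) (I J : Finset (Fin n))
    (h : ∑ i ∈ I, 2 ^ (i : ℕ) = ∑ i ∈ J, 2 ^ (i : ℕ)) : I = J := by
  rw [sum_pow_eq, sum_pow_eq] at h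
  have h1 := Finset.geomSum_injective (n := 2) le_rfl h
  exact map_injective _ h1

lemma fam_key (t n : ℕ) (j k : Fin t) (I J : Finset (Fin n))
    (h : ∑ i ∈ I, fam t n j i = ∑ i ∈ J, fam t n k i) :
    I = J ∧ I.card * j = I.card * k := by
  rw [sum_fam, sum_fam] at h
  have h1 := sum_pow_lt n I
  have h2 := sum_pow_lt n J
  have h3 : ∑ i ∈ I, 2 ^ (i : ℕ) = ∑ i ∈ J, 2 ^ (i : ℕ) := by
    have h4 := congrArg (fun x => x % 2 ^ n) h
    simp only [Nat.mul_add_mod_self_right] at h4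
    rwa [Nat.mod_eq_of_lt h1, Nat.mod_eq_of_lt h2] at h4
  have h5 := sum_pow_inj n I J h3
  subst h5
  refine ⟨rfl, ?_⟩
  have h6 : (I.card * (j : ℕ)) * 2 ^ n = (I.card * (k : ℕ)) * 2 ^ n := by omega
  exact Nat.eq_of_mul_eq_mul_right (by positivity) h6

lemma fam_isFamily (t n : ℕ) : IsFamily t n (fam t n) := by
  refine ⟨?_, ?_, ?_, ?_⟩
  · intro j i i' hii
    unfold fam
    have : 2 ^ (i : ℕ) < 2 ^ (i' : ℕ) := Nat.pow_lt_pow_right (by norm_num) hii
    omega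
  · intro j i
    unfold fam
    positivity
  · intro j I J h
    exact (fam_key t n j j I J h).1
  · intro j k hjk I J hI hJ h
    obtain ⟨rfl, h2⟩ := fam_key t n j k I J h
    apply hjk
    exact Fin.ext (Nat.eq_of_mul_eq_mul_left (card_pos.mpr hI) h2)

lemma lower (t n M : ℕ) (A : Fin t → Fin n → ℕ) (hA : IsFamily t n A)
    (hM : ∀ j i, A j i ≤ M) : t * (2 ^ n - 1) ≤ n * M := by
  classical
  obtain ⟨_, hpos, hsd, hc⟩ := hA
  let S : Finset (Fin t × Finset (Fin n)) := univ ×ˢ (univ.erase ∅)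
  have hS : S.card = t * (2 ^ n - 1) := by
    simp [S, card_product, card_erase_of_mem]
  let f : Fin t × Finset (Fin n) → ℕ := fun x => ∑ i ∈ x.2, A x.1 i
  have hinj : Set.InjOn f S := by
    rintro ⟨j, I⟩ hx ⟨k, J⟩ hy h
    simp only [S, coe_product, Set.mem_prod, mem_coe, mem_univ, true_and, mem_erase, ne_eq,
      and_true] at hx hy
    by_cases hjk : j = k
    · subst hjk
      rw [hsd j I J h]
    · exact absurd h (hc j k hjk I J (nonempty_iff_ne_empty.mpr hx) (nonempty_iff_ne_empty.mpr hy))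
  have hmaps : ∀ x ∈ S, f x ∈ Icc 1 (n * M) := by
    rintro ⟨j, I⟩ hx
    simp only [S, mem_product, mem_univ, true_and, mem_erase, ne_eq, and_true] at hx
    rw [mem_Icc]
    constructor
    · obtain ⟨i, hi⟩ := nonempty_iff_ne_empty.mpr hx
      have h1 : A j i ≤ ∑ i ∈ I, A j i := single_le_sum (fun _ _ => Nat.zero_le _) hi
      have h2 := hpos j i
      exact h2.trans_le h1
    · calc f (j, I) ≤ ∑ _i ∈ I, M := sum_le_sum (fun i _ => hM j i)
        _ = I.card * M := by rw [sum_const, smul_eq_mul]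
        _ ≤ n * M := by
          apply Nat.mul_le_mul_right
          have := card_le_univ I
          simpa using this
  have h1 := card_le_card_of_injOn f hmaps hinj
  rw [hS, Nat.card_Icc] at h1
  omega

/-- For all `t, n ≥ 1` one has `t (2^n - 1) / n ≤ s(t,n) ≤ (2t - 1) 2^(n-1)`. -/
theorem result : ∀ t n : ℕ, 1 ≤ t → 1 ≤ n →
    t * (2 ^ n - 1) ≤ n * s t n ∧ s t n ≤ (2 * t - 1) * 2 ^ (n - 1) := by
  intro t n ht hn
  have hmem : (2 * t - 1) * 2 ^ (n - 1) ∈ {M : ℕ | ∃ A : Fin t → Fin n → ℕ,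
      IsFamily t n A ∧ (∀ j i, A j i ≤ M) ∧ ∃ j i, A j i = M} := by
    obtain ⟨t, rfl⟩ : ∃ u, t = u + 1 := ⟨t - 1, by omega⟩
    obtain ⟨n, rfl⟩ : ∃ u, n = u + 1 := ⟨n - 1, by omega⟩
    have e : (2 * (t + 1) - 1) * 2 ^ (n + 1 - 1) = t * 2 ^ (n + 1) + 2 ^ n := by
      have : 2 * (t + 1) - 1 = 2 * t + 1 := by omega
      rw [this, Nat.add_sub_cancel, pow_succ]
      ring
    rw [e]
    refine ⟨fam (t + 1) (n + 1), fam_isFamily _ _, ?_, Fin.last t, Fin.last n, ?_⟩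
    · intro j i
      unfold fam
      have h1 : (j : ℕ) ≤ t := Nat.lt_succ_iff.mp j.2
      have h2 : (i : ℕ) ≤ n := Nat.lt_succ_iff.mp i.2
      exact add_le_add (Nat.mul_le_mul_right _ h1) (Nat.pow_le_pow_right (by norm_num) h2)
    · simp [fam]
  refine ⟨?_, Nat.sInf_le hmem⟩
  obtain ⟨A, hA, hM, _⟩ := Nat.sInf_mem ⟨_, hmem⟩
  exact lower t n _ A hA hM

end Pool.Agent.Results.MP_21e00f_co.TwoSidedBounds
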